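import Mathlib

set_option autoImplicit false

/-!
# The largest eigenvalue of the inverse of the connection matrix need not be simple

The connected simplicial complex with the facets 06, 146, 17, 257, 28, 038 (9 vertices and 24
simplices) has a symmetry of order three; the largest eigenvalue (approximately 4.114) of the
inverse of its connection matrix is at least double, and it also is the eigenvalue with the largest
absolute value.
-/

namespace Pool.Agent.Results.MP_5fc97f_co.DoubleTop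

open Finset

/-- Finite abstract simplicial complexes: families of nonempty finite sets, closed under taking
nonempty subsets. -/
def IsComplex {V : Type} (G : Finset (Finset V)) : Prop :=
  ∀ x ∈ G, x.Nonempty ∧ ∀ y ⊆ x, y.Nonempty → y ∈ G

/-- The connection matrix: `L(x,y) = 1` if `x` and `y` intersect and `0` otherwise. -/
def connectionMatrix {V : Type} [DecidableEq V] (G : Finset (Finset V)) : Matrix G G ℝ :=
  Matrix.of fun x y => if (x.1 ∩ y.1).Nonempty then 1 else 0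

/-- The inverse of the connection matrix. -/
noncomputable def greenMatrix {V : Type} [DecidableEq V] (G : Finset (Finset V)) : Matrix G G ℝ :=
  (connectionMatrix G)⁻¹

/-- The graph on `G` in which different intersecting simplices are adjacent. -/
def connectionGraph {V : Type} [DecidableEq V] (G : Finset (Finset V)) : SimpleGraph G :=
  SimpleGraph.fromRel fun x y => (x.1 ∩ y.1).Nonempty

/-- `v` satisfies `M v = ν v`. -/
def Eigen {ι : Type} [Fintype ι] (M : Matrix ι ι ℝ) (ν : ℝ) (v : ι → ℝ) : Prop :=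
  ∀ x, ∑ y, M x y * v y = ν * v x

/-- There is a real number `μ` which is at least the absolute value of each real eigenvalue of `M`,
and there are two linearly independent eigenvectors of `M` with the eigenvalue `μ`. -/
def TopIsMultiple {ι : Type} [Fintype ι] (M : Matrix ι ι ℝ) : Prop :=
  ∃ μ : ℝ, (∀ (ν : ℝ) (v : ι → ℝ), v ≠ 0 → Eigen M ν v → |ν| ≤ μ) ∧
    ∃ v w : ι → ℝ, Eigen M μ v ∧ Eigen M μ w ∧ LinearIndependent ℝ ![v, w]

/-! ### Abstract part -/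

section Abstract

variable {ι : Type} [Fintype ι] [DecidableEq ι]

theorem exists_large (M : Matrix ι ι ℝ) (hM : ∀ i j, M i j = M j i) (a : ℝ) (t : ι → ℝ)
    (ht : a * ∑ i, t i ^ 2 < ∑ i, ∑ j, M i j * t i * t j) :
    ∃ μ : ℝ, a < μ ∧ Module.End.HasEigenvalue (Matrix.toLin' M) μ := by
  by_contra hcon
  push Not at hcon
  have hH : (a • (1 : Matrix ι ι ℝ) - M).IsHermitian := by
    ext i j
    rw [Matrix.conjTranspose_apply, Matrix.sub_apply, Matrix.sub_apply, Matrix.smul_apply,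
      Matrix.smul_apply, hM j i]
    by_cases h : i = j
    · subst h
      simp
    · rw [Matrix.one_apply_ne h, Matrix.one_apply_ne (Ne.symm h)]
      simp
  have hpos : (a • (1 : Matrix ι ι ℝ) - M).PosSemidef := by
    rw [hH.posSemidef_iff_eigenvalues_nonneg]
    intro i
    by_contra hneg
    have hneg' : hH.eigenvalues i < 0 := lt_of_not_ge hneg
    have h1 := hH.mulVec_eigenvectorBasis i
    have hne : (hH.eigenvectorBasis i : EuclideanSpace ℝ ι) ≠ 0 :=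
      hH.eigenvectorBasis.orthonormal.ne_zero i
    apply hcon (a - hH.eigenvalues i) (by linarith)
    apply Module.End.hasEigenvalue_of_hasEigenvector
      (x := (⇑(hH.eigenvectorBasis i) : ι → ℝ))
    rw [Module.End.hasEigenvector_iff, Module.End.mem_eigenspace_iff]
    refine ⟨?_, fun h => hne ?_⟩
    · rw [Matrix.toLin'_apply]
      rw [Matrix.sub_mulVec, Matrix.smul_mulVec, Matrix.one_mulVec] at h1
      rw [sub_smul, ← h1]
      abel
    · ext j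
      exact congrFun h j
  have h2 := hpos.dotProduct_mulVec_nonneg t
  have h3 : star t ⬝ᵥ (a • (1 : Matrix ι ι ℝ) - M).mulVec t =
      a * ∑ i, t i ^ 2 - ∑ i, ∑ j, M i j * t i * t j := by
    rw [Matrix.sub_mulVec, Matrix.smul_mulVec, Matrix.one_mulVec, dotProduct_sub]
    congr 1
    · rw [dotProduct, mul_sum]
      apply sum_congr rfl
      intro i _
      simp only [Pi.star_apply, star_trivial, Pi.smul_apply, smul_eq_mul]
      ring
    · rw [dotProduct]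
      apply sum_congr rfl
      intro i _
      rw [Matrix.mulVec, dotProduct, mul_sum]
      apply sum_congr rfl
      intro j _
      simp only [Pi.star_apply, star_trivial]
      ring
  rw [h3] at h2
  linarith

omit [DecidableEq ι] in
theorem quad_eigen (M : Matrix ι ι ℝ) (ν : ℝ) (w : ι → ℝ) (hw : Eigen M ν w) :
    ∑ i, ∑ j, M i j * w i * w j = ν * ∑ i, w i ^ 2 := by
  rw [mul_sum]
  apply sum_congr rfl
  intro i _
  rw [show ν * w i ^ 2 = (ν * w i) * w i by ring, ← hw i, sum_mul]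
  apply sum_congr rfl
  intro j _
  ring

omit [DecidableEq ι] in
theorem sq_pos (w : ι → ℝ) (hw : w ≠ 0) : 0 < ∑ i, w i ^ 2 := by
  obtain ⟨i, hi⟩ := Function.ne_iff.1 hw
  have hi' : w i ≠ 0 := hi
  exact sum_pos' (fun j _ => sq_nonneg _) ⟨i, mem_univ _, by positivity⟩

theorem eigen_iff (M : Matrix ι ι ℝ) (ν : ℝ) (v : ι → ℝ) :
    Eigen M ν v ↔ Matrix.toLin' M v = ν • v := by
  constructor
  · intro h
    funext x
    rw [Matrix.toLin'_apply, Matrix.mulVec, dotProduct, Pi.smul_apply, smul_eq_mul]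
    exact h x
  · intro h x
    have := congrFun h x
    rw [Matrix.toLin'_apply, Matrix.mulVec, dotProduct, Pi.smul_apply, smul_eq_mul] at this
    exact this

theorem abstractPart (M : Matrix ι ι ℝ) (hM : ∀ i j, M i j = M j i) (σ : ι → ι)
    (hσ : ∀ i, σ (σ (σ i)) = i) (hMσ : ∀ i j, M (σ i) (σ j) = M i j) (a : ℝ) (t : ι → ℝ)
    (ht : a * ∑ i, t i ^ 2 < ∑ i, ∑ j, M i j * t i * t j)
    (hinv : ∀ v : ι → ℝ, (∀ i, v (σ i) = v i) → ∑ i, ∑ j, M i j * v i * v j ≤ a * ∑ i, v i ^ 2)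
    (hlow : ∀ v : ι → ℝ, 0 ≤ a * ∑ i, v i ^ 2 + ∑ i, ∑ j, M i j * v i * v j) :
    TopIsMultiple M := by
  obtain ⟨μ0, h0, h0'⟩ := exists_large M hM a t ht
  obtain ⟨μ, hμ, hmax⟩ := Set.exists_max_image {μ | Module.End.HasEigenvalue (Matrix.toLin' M) μ} id
    (Module.End.finite_hasEigenvalue _) ⟨μ0, h0'⟩
  have haμ : a < μ := lt_of_lt_of_le h0 (hmax μ0 h0')
  have hμ' : Module.End.HasEigenvalue (Matrix.toLin' M) μ := hμ
  refine ⟨μ, fun ν w hw0 hw => ?_, ?_⟩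
  · rw [abs_le]
    have hν : Module.End.HasEigenvalue (Matrix.toLin' M) ν := by
      apply Module.End.hasEigenvalue_of_hasEigenvector (x := w)
      rw [Module.End.hasEigenvector_iff, Module.End.mem_eigenspace_iff]
      exact ⟨(eigen_iff M ν w).1 hw, hw0⟩
    refine ⟨?_, hmax ν hν⟩
    have h1 := quad_eigen M ν w hw
    have h2 := hlow w
    have h3 := sq_pos w hw0
    rw [h1, ← add_mul] at h2
    have h4 : 0 ≤ a + ν := nonneg_of_mul_nonneg_left h2 h3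
    linarith
  · obtain ⟨w, hw⟩ := hμ'.exists_hasEigenvector
    have hw0 : w ≠ 0 := hw.2
    have hw1 : Eigen M μ w := (eigen_iff M μ w).2 hw.apply_eq_smul
    have hbij : Function.Bijective σ := by
      refine Function.bijective_iff_has_inverse.2 ⟨fun i => σ (σ i), fun i => hσ i, fun i => hσ i⟩
    let s : ι ≃ ι := Equiv.ofBijective σ hbij
    have hw2 : Eigen M μ (fun i => w (σ i)) := by
      intro i
      rw [← hw1 (σ i)]
      have h3 := Equiv.sum_comp s (fun j => M (σ i) j * w j)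
      rw [← h3]
      apply sum_congr rfl
      intro j _
      show M i j * w (σ j) = M (σ i) (σ j) * w (σ j)
      rw [hMσ]
    refine ⟨w, _, hw1, hw2, ?_⟩
    rw [LinearIndependent.pair_iff' hw0]
    intro c hc
    have hc' : ∀ i, c * w i = w (σ i) := fun i => congrFun hc i
    obtain ⟨i, hi⟩ := Function.ne_iff.1 hw0
    have hi' : w i ≠ 0 := hi
    have hc3 : c ^ 3 = 1 := by
      have h2 : c ^ 3 * w i = 1 * w i := by
        rw [one_mul]
        calc c ^ 3 * w i = c * (c * (c * w i)) := by ring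
          _ = w i := by rw [hc', hc', hc', hσ]
      exact mul_right_cancel₀ hi' h2
    have hc1 : c = 1 := by
      have h2 : (c - 1) * (c ^ 2 + c + 1) = 0 := by linear_combination hc3
      rcases mul_eq_zero.1 h2 with h | h
      · linarith
      · nlinarith [sq_nonneg (c + 1 / 2)]
    have h5 := hinv w (fun j => by rw [← hc' j, hc1, one_mul])
    rw [quad_eigen M μ _ hw1] at h5
    have h6 := sq_pos w hw0
    nlinarith

end Abstract

/-- a certificate for positive semidefiniteness -/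
theorem psd_of_cert {m : ℕ} (M B : Fin m → Fin m → ℤ) (c : ℤ) (hc : 0 < c)
    (hM : ∀ i j, M i j = M j i)
    (h : ∀ i, ∑ j, (if j = i then 0 else ((c * M i j - ∑ k, B k i * B k j).natAbs : ℤ)) ≤
      c * M i i - ∑ k, B k i * B k i) (v : Fin m → ℝ) :
    0 ≤ ∑ i, ∑ j, (M i j : ℝ) * v i * v j := by
  have key : 0 ≤ (c : ℝ) * ∑ i, ∑ j, (M i j : ℝ) * v i * v j := by
    let R : Fin m → Fin m → ℤ := fun i j => c * M i j - ∑ k, B k i * B k j
    have hR : ∀ i j, R i j = R j i := by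
      intro i j
      simp only [R]
      rw [hM i j]
      congr 1
      exact sum_congr rfl (fun k _ => mul_comm _ _)
    have h1 : (c : ℝ) * ∑ i, ∑ j, (M i j : ℝ) * v i * v j =
        ∑ k, (∑ i, (B k i : ℝ) * v i) ^ 2 + ∑ i, ∑ j, (R i j : ℝ) * v i * v j := by
      have h2 : ∑ k, (∑ i, (B k i : ℝ) * v i) ^ 2 =
          ∑ i, ∑ j, ((∑ k, B k i * B k j : ℤ) : ℝ) * v i * v j := by
        have h3 : ∀ k, (∑ i, (B k i : ℝ) * v i) ^ 2 =
            ∑ i, ∑ j, ((B k i : ℝ) * (B k j : ℝ)) * v i * v j := by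
          intro k
          rw [sq, sum_mul_sum]
          apply sum_congr rfl
          intro i _
          apply sum_congr rfl
          intro j _
          ring
        simp_rw [h3]
        rw [sum_comm]
        apply sum_congr rfl
        intro i _
        rw [sum_comm]
        apply sum_congr rfl
        intro j _
        push_cast
        rw [sum_mul, sum_mul]
      rw [h2, mul_sum, ← sum_add_distrib]
      apply sum_congr rfl
      intro i _
      rw [mul_sum, ← sum_add_distrib]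
      apply sum_congr rfl
      intro j _
      simp only [R]
      push_cast
      ring
    rw [h1]
    apply add_nonneg (sum_nonneg (fun k _ => sq_nonneg _))
    -- diagonal dominance
    let P : Fin m → Fin m → ℝ := fun i j => if j = i then 0 else ((R i j).natAbs : ℝ)
    have hP : ∀ i j, P i j = P j i := by
      intro i j
      simp only [P]
      by_cases hij : j = i
      · rw [if_pos hij, if_pos hij.symm]
      · rw [if_neg hij, if_neg (Ne.symm hij), hR i j]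
    have h4 : ∀ i j, (if j = i then (R i i : ℝ) * v i ^ 2 else 0) -
        P i j * ((v i ^ 2 + v j ^ 2) / 2) ≤ (R i j : ℝ) * v i * v j := by
      intro i j
      by_cases hij : j = i
      · subst hij
        simp only [P, if_true]
        linarith [sq_nonneg (v j)]
      · simp only [P, if_neg hij]
        rw [Nat.cast_natAbs, Int.cast_abs]
        have h5 : |(R i j : ℝ) * v i * v j| ≤ |(R i j : ℝ)| * ((v i ^ 2 + v j ^ 2) / 2) := by
          rw [mul_assoc, abs_mul]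
          apply mul_le_mul_of_nonneg_left _ (abs_nonneg _)
          rw [abs_le]
          constructor
          · nlinarith [sq_nonneg (v i + v j)]
          · nlinarith [sq_nonneg (v i - v j)]
        have h6 := (abs_le.1 h5).1
        linarith
    have h7 : ∑ i, ∑ j, ((if j = i then (R i i : ℝ) * v i ^ 2 else 0) -
        P i j * ((v i ^ 2 + v j ^ 2) / 2)) ≤ ∑ i, ∑ j, (R i j : ℝ) * v i * v j :=
      sum_le_sum (fun i _ => sum_le_sum (fun j _ => h4 i j))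
    refine le_trans ?_ h7
    have h8 : ∑ i, ∑ j, ((if j = i then (R i i : ℝ) * v i ^ 2 else 0) -
        P i j * ((v i ^ 2 + v j ^ 2) / 2)) = ∑ i, ((R i i : ℝ) - ∑ j, P i j) * v i ^ 2 := by
      simp_rw [sum_sub_distrib]
      have h9 : ∑ i, ∑ j, P i j * ((v i ^ 2 + v j ^ 2) / 2) = ∑ i, (∑ j, P i j) * v i ^ 2 := by
        have h10 : ∑ i, ∑ j, P i j * ((v i ^ 2 + v j ^ 2) / 2) =
            ∑ i, ∑ j, P i j * v i ^ 2 / 2 + ∑ i, ∑ j, P i j * v j ^ 2 / 2 := by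
          rw [← sum_add_distrib]
          apply sum_congr rfl
          intro i _
          rw [← sum_add_distrib]
          apply sum_congr rfl
          intro j _
          ring
        have h11 : ∑ i, ∑ j, P i j * v j ^ 2 / 2 = ∑ i, ∑ j, P i j * v i ^ 2 / 2 := by
          rw [sum_comm]
          apply sum_congr rfl
          intro i _
          apply sum_congr rfl
          intro j _
          rw [hP j i]
        rw [h10, h11, ← sum_add_distrib]
        apply sum_congr rfl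
        intro i _
        rw [sum_mul, ← sum_add_distrib]
        apply sum_congr rfl
        intro j _
        ring
      rw [h9, ← sum_sub_distrib]
      apply sum_congr rfl
      intro i _
      rw [sum_ite_eq' univ i]
      rw [if_pos (mem_univ i)]
      ring
    rw [h8]
    apply sum_nonneg
    intro i _
    apply mul_nonneg _ (sq_nonneg _)
    have h12 := h i
    have h13 : ((∑ j, (if j = i then 0 else ((R i j).natAbs : ℤ)) : ℤ) : ℝ) ≤ ((R i i : ℤ) : ℝ) := by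
      exact_mod_cast h12
    rw [Int.cast_sum] at h13
    have h14 : ∑ j, (((if j = i then 0 else ((R i j).natAbs : ℤ)) : ℤ) : ℝ) = ∑ j, P i j := by
      apply sum_congr rfl
      intro j _
      simp only [P]
      split_ifs
      · simp
      · rw [Int.cast_natCast]
    rw [h14] at h13
    linarith
  have hc' : (0 : ℝ) < c := by exact_mod_cast hc
  exact nonneg_of_mul_nonneg_right key hc'

/-! ### Data -/

/-- the simplices -/
def e : Fin 24 → Finset (Fin 9) :=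
  ![{0}, {1}, {2}, {3}, {4}, {5}, {6}, {7}, {8}, {0, 3}, {1, 4}, {2, 5}, {0, 6}, {1, 7}, {2, 8}, {0, 8}, {1, 6}, {2, 7}, {3, 8}, {4, 6}, {5, 7}, {0, 3, 8}, {1, 4, 6}, {2, 5, 7}]

/-- the complex -/
def G : Finset (Finset (Fin 9)) := univ.image e

/-- the connection matrix with integer entries -/
def A (i j : Fin 24) : ℤ := if (e i ∩ e j).Nonempty then 1 else 0

/-- its inverse -/
def g : Fin 24 → Fin 24 → ℤ :=
  ![![-1, 0, 0, 0, 0, 0, -1, 0, 0, 0, 0, 0, 1, 0, 0, 0, 0, 0, -1, 0, 0, 1, 0, 0],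
    ![0, -1, 0, 0, 0, 0, 0, -1, 0, 0, 0, 0, 0, 1, 0, 0, 0, 0, 0, -1, 0, 0, 1, 0],
    ![0, 0, -1, 0, 0, 0, 0, 0, -1, 0, 0, 0, 0, 0, 1, 0, 0, 0, 0, 0, -1, 0, 0, 1],
    ![0, 0, 0, 0, 0, 0, 0, 0, 0, 0, 0, 0, 0, 0, 0, -1, 0, 0, 0, 0, 0, 1, 0, 0],
    ![0, 0, 0, 0, 0, 0, 0, 0, 0, 0, 0, 0, 0, 0, 0, 0, -1, 0, 0, 0, 0, 0, 1, 0],
    ![0, 0, 0, 0, 0, 0, 0, 0, 0, 0, 0, 0, 0, 0, 0, 0, 0, -1, 0, 0, 0, 0, 0, 1],
    ![-1, 0, 0, 0, 0, 0, -1, 0, 0, 0, -1, 0, 1, 0, 0, 0, 0, 0, 0, 0, 0, 0, 1, 0],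
    ![0, -1, 0, 0, 0, 0, 0, -1, 0, 0, 0, -1, 0, 1, 0, 0, 0, 0, 0, 0, 0, 0, 0, 1],
    ![0, 0, -1, 0, 0, 0, 0, 0, -1, -1, 0, 0, 0, 0, 1, 0, 0, 0, 0, 0, 0, 1, 0, 0],
    ![0, 0, 0, 0, 0, 0, 0, 0, -1, 0, 0, 0, 0, 0, 0, 1, 0, 0, 1, 0, 0, -1, 0, 0],
    ![0, 0, 0, 0, 0, 0, -1, 0, 0, 0, 0, 0, 0, 0, 0, 0, 1, 0, 0, 1, 0, 0, -1, 0],
    ![0, 0, 0, 0, 0, 0, 0, -1, 0, 0, 0, 0, 0, 0, 0, 0, 0, 1, 0, 0, 1, 0, 0, -1],
    ![1, 0, 0, 0, 0, 0, 1, 0, 0, 0, 0, 0, -1, 0, 0, 0, 0, 0, 0, 0, 0, 0, 0, 0],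
    ![0, 1, 0, 0, 0, 0, 0, 1, 0, 0, 0, 0, 0, -1, 0, 0, 0, 0, 0, 0, 0, 0, 0, 0],
    ![0, 0, 1, 0, 0, 0, 0, 0, 1, 0, 0, 0, 0, 0, -1, 0, 0, 0, 0, 0, 0, 0, 0, 0],
    ![0, 0, 0, -1, 0, 0, 0, 0, 0, 1, 0, 0, 0, 0, 0, 0, 0, 0, 1, 0, 0, -1, 0, 0],
    ![0, 0, 0, 0, -1, 0, 0, 0, 0, 0, 1, 0, 0, 0, 0, 0, 0, 0, 0, 1, 0, 0, -1, 0],
    ![0, 0, 0, 0, 0, -1, 0, 0, 0, 0, 0, 1, 0, 0, 0, 0, 0, 0, 0, 0, 1, 0, 0, -1],
    ![-1, 0, 0, 0, 0, 0, 0, 0, 0, 1, 0, 0, 0, 0, 0, 1, 0, 0, 0, 0, 0, -1, 0, 0],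
    ![0, -1, 0, 0, 0, 0, 0, 0, 0, 0, 1, 0, 0, 0, 0, 0, 1, 0, 0, 0, 0, 0, -1, 0],
    ![0, 0, -1, 0, 0, 0, 0, 0, 0, 0, 0, 1, 0, 0, 0, 0, 0, 1, 0, 0, 0, 0, 0, -1],
    ![1, 0, 0, 1, 0, 0, 0, 0, 1, -1, 0, 0, 0, 0, 0, -1, 0, 0, -1, 0, 0, 1, 0, 0],
    ![0, 1, 0, 0, 1, 0, 1, 0, 0, 0, -1, 0, 0, 0, 0, 0, -1, 0, 0, -1, 0, 0, 1, 0],
    ![0, 0, 1, 0, 0, 1, 0, 1, 0, 0, 0, -1, 0, 0, 0, 0, 0, -1, 0, 0, -1, 0, 0, 1]]

/-- the rotation -/
def σ : Fin 24 → Fin 24 := ![1, 2, 0, 4, 5, 3, 7, 8, 6, 10, 11, 9, 13, 14, 12, 16, 17, 15, 19, 20, 18, 22, 23, 21]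

/-- spanning tree -/
def par : Fin 24 → Fin 24 := ![0, 16, 14, 9, 19, 11, 12, 13, 15, 0, 16, 14, 0, 16, 15, 0, 12, 14, 9, 12, 13, 0, 12, 14]

def B1 : Fin 24 → Fin 24 → ℤ :=
  ![![1802, -399, -399, 0, 0, 0, 200, 0, 0, 0, 0, 0, -200, 0, 0, 0, 0, 0, 200, 0, 0, -200, 0, 0],
    ![0, 1758, -500, 0, 0, 0, 45, 205, 0, 0, 0, 0, -45, -205, 0, 0, 0, 0, 45, 205, 0, -45, -205, 0],
    ![0, 0, 1685, 0, 0, 0, 61, 61, 214, 0, 0, 0, -61, -61, -214, 0, 0, 0, 61, 61, 214, -61, -61, -214],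
    ![0, 0, 0, 1700, -424, -424, 0, 0, 0, 0, 0, 0, 0, 0, 0, 212, 0, 0, 0, 0, 0, -212, 0, 0],
    ![0, 0, 0, 0, 1646, -546, 0, 0, 0, 0, 0, 0, 0, 0, 0, 55, 219, 0, 0, 0, 0, -55, -219, 0],
    ![0, 0, 0, 0, 0, 1553, 0, 0, 0, 0, 0, 0, 0, 0, 0, 77, 77, 232, 0, 0, 0, -77, -77, -232],
    ![0, 0, 0, 0, 0, 0, 1790, -410, -410, 0, 201, 0, -176, 7, 7, 0, 0, 0, -26, -7, -7, 26, -194, 7],
    ![0, 0, 0, 0, 0, 0, 0, 1742, -517, 0, 47, 207, -34, -179, 9, 0, 0, 0, -13, -28, -9, 13, -19, -197],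
    ![0, 0, 0, 0, 0, 0, 0, 0, 1664, 216, 64, 64, -46, -46, -184, 0, 0, 0, -18, -18, -32, -198, -46, -32],
    ![0, 0, 0, 0, 0, 0, 0, 0, 0, 1686, -435, -435, 6, 6, 24, -214, 0, 0, -211, 2, 4, 239, 6, 4],
    ![0, 0, 0, 0, 0, 0, 0, 0, 0, 0, 1629, -567, 26, 8, 12, -57, -221, 0, -52, -218, 4, 68, 249, 7],
    ![0, 0, 0, 0, 0, 0, 0, 0, 0, 0, 0, 1527, 18, 31, 18, -82, -82, -236, -77, -76, -231, 100, 99, 268],
    ![0, 0, 0, 0, 0, 0, 0, 0, 0, 0, 0, 0, 1780, -416, -416, 2, 4, 2, 25, 10, 8, -31, -33, -14],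
    ![0, 0, 0, 0, 0, 0, 0, 0, 0, 0, 0, 0, 0, 1731, -528, 3, 3, 5, 14, 28, 12, -22, -40, -37],
    ![0, 0, 0, 0, 0, 0, 0, 0, 0, 0, 0, 0, 0, 0, 1648, 6, 5, 5, 21, 20, 32, -50, -36, -49],
    ![0, 0, 0, 0, 0, 0, 0, 0, 0, 0, 0, 0, 0, 0, 0, 1667, -454, -454, -249, -11, -11, 286, 25, 25],
    ![0, 0, 0, 0, 0, 0, 0, 0, 0, 0, 0, 0, 0, 0, 0, 0, 1604, -601, -82, -262, -15, 107, 305, 33],
    ![0, 0, 0, 0, 0, 0, 0, 0, 0, 0, 0, 0, 0, 0, 0, 0, 0, 1487, -121, -121, -288, 159, 159, 342],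
    ![0, 0, 0, 0, 0, 0, 0, 0, 0, 0, 0, 0, 0, 0, 0, 0, 0, 0, 1644, -481, -481, 344, 49, 51],
    ![0, 0, 0, 0, 0, 0, 0, 0, 0, 0, 0, 0, 0, 0, 0, 0, 0, 0, 0, 1573, -650, 159, 375, 67],
    ![0, 0, 0, 0, 0, 0, 0, 0, 0, 0, 0, 0, 0, 0, 0, 0, 0, 0, 0, 0, 1432, 244, 245, 443],
    ![0, 0, 0, 0, 0, 0, 0, 0, 0, 0, 0, 0, 0, 0, 0, 0, 0, 0, 0, 0, 0, 1411, -700, -700],
    ![0, 0, 0, 0, 0, 0, 0, 0, 0, 0, 0, 0, 0, 0, 0, 0, 0, 0, 0, 0, 0, 0, 1225, -1206],
    ![0, 0, 0, 0, 0, 0, 0, 0, 0, 0, 0, 0, 0, 0, 0, 0, 0, 0, 0, 0, 0, 0, 0, 216]]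

def B2 : Fin 24 → Fin 24 → ℤ :=
  ![![66, 0, 0, 0, 0, 0, -24, 0, 0, 0, 0, 0, 24, 0, 0, 0, 0, 0, -24, 0, 0, 24, 0, 0],
    ![0, 66, 0, 0, 0, 0, 0, -24, 0, 0, 0, 0, 0, 24, 0, 0, 0, 0, 0, -24, 0, 0, 24, 0],
    ![0, 0, 66, 0, 0, 0, 0, 0, -24, 0, 0, 0, 0, 0, 24, 0, 0, 0, 0, 0, -24, 0, 0, 24],
    ![0, 0, 0, 77, 0, 0, 0, 0, 0, 0, 0, 0, 0, 0, 0, -21, 0, 0, 0, 0, 0, 21, 0, 0],
    ![0, 0, 0, 0, 77, 0, 0, 0, 0, 0, 0, 0, 0, 0, 0, 0, -21, 0, 0, 0, 0, 0, 21, 0],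
    ![0, 0, 0, 0, 0, 77, 0, 0, 0, 0, 0, 0, 0, 0, 0, 0, 0, -21, 0, 0, 0, 0, 0, 21],
    ![0, 0, 0, 0, 0, 0, 62, 0, 0, 0, -26, 0, 35, 0, 0, 0, 0, 0, -9, 0, 0, 9, 26, 0],
    ![0, 0, 0, 0, 0, 0, 0, 62, 0, 0, 0, -26, 0, 35, 0, 0, 0, 0, 0, -9, 0, 0, 9, 26],
    ![0, 0, 0, 0, 0, 0, 0, 0, 62, -26, 0, 0, 0, 0, 35, 0, 0, 0, 0, 0, -9, 26, 0, 9],
    ![0, 0, 0, 0, 0, 0, 0, 0, 0, 73, 0, 0, 0, 0, 13, 22, 0, 0, 22, 0, -3, -13, 0, 3],
    ![0, 0, 0, 0, 0, 0, 0, 0, 0, 0, 73, 0, 13, 0, 0, 0, 22, 0, -3, 22, 0, 3, -13, 0],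
    ![0, 0, 0, 0, 0, 0, 0, 0, 0, 0, 0, 73, 0, 13, 0, 0, 0, 22, 0, -3, 22, 0, 3, -13],
    ![0, 0, 0, 0, 0, 0, 0, 0, 0, 0, 0, 0, 49, 0, 0, 0, -6, 0, 20, -6, 0, -20, -15, 0],
    ![0, 0, 0, 0, 0, 0, 0, 0, 0, 0, 0, 0, 0, 49, 0, 0, 0, -6, 0, 20, -6, 0, -20, -15],
    ![0, 0, 0, 0, 0, 0, 0, 0, 0, 0, 0, 0, 0, 0, 49, -6, 0, 0, -6, 0, 20, -15, 0, -20],
    ![0, 0, 0, 0, 0, 0, 0, 0, 0, 0, 0, 0, 0, 0, 0, 71, 0, 0, 15, 0, 3, -14, 0, -3],
    ![0, 0, 0, 0, 0, 0, 0, 0, 0, 0, 0, 0, 0, 0, 0, 0, 71, 0, 3, 15, 0, -3, -14, 0],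
    ![0, 0, 0, 0, 0, 0, 0, 0, 0, 0, 0, 0, 0, 0, 0, 0, 0, 71, 0, 3, 15, 0, -3, -14],
    ![0, 0, 0, 0, 0, 0, 0, 0, 0, 0, 0, 0, 0, 0, 0, 0, 0, 0, 65, 2, 2, -2, 8, -2],
    ![0, 0, 0, 0, 0, 0, 0, 0, 0, 0, 0, 0, 0, 0, 0, 0, 0, 0, 0, 65, 2, -2, -2, 8],
    ![0, 0, 0, 0, 0, 0, 0, 0, 0, 0, 0, 0, 0, 0, 0, 0, 0, 0, 0, 0, 65, 8, -2, -2],
    ![0, 0, 0, 0, 0, 0, 0, 0, 0, 0, 0, 0, 0, 0, 0, 0, 0, 0, 0, 0, 0, 69, -7, -7],
    ![0, 0, 0, 0, 0, 0, 0, 0, 0, 0, 0, 0, 0, 0, 0, 0, 0, 0, 0, 0, 0, 0, 69, -8],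
    ![0, 0, 0, 0, 0, 0, 0, 0, 0, 0, 0, 0, 0, 0, 0, 0, 0, 0, 0, 0, 0, 0, 0, 68]]

/-- test vector -/
def t : Fin 24 → ℤ := ![1, 7, -9, 3, 7, -10, 6, -9, 4, -4, -11, 16, 1, 0, -1, -4, -11, 16, -4, -12, 16, 6, 17, -24]

/-- the orbit matrix -/
def orb (i j : Fin 24) : ℤ :=
  (if j = i then 1 else 0) + (if j = σ i then 1 else 0) + (if j = σ (σ i) then 1 else 0)

def M1 (i j : Fin 24) : ℤ := (if i = j then 65 + 96 else 0) - 16 * g i j - 32 * orb i j

def M2 (i j : Fin 24) : ℤ := (if i = j then 65 else 0) + 16 * g i j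

theorem e_inj : ∀ i j, e i = e j → i = j := by decide +kernel

theorem G_complex : ∀ x ∈ G, x.Nonempty ∧ ∀ y ∈ x.powerset, y.Nonempty → y ∈ G := by
  decide +kernel

theorem par_spec : ∀ i, i ≠ 0 → (par (par (par (par (par (par i))))) = 0 ∧
    (par i ≠ i ∧ (e i ∩ e (par i)).Nonempty)) := by decide +kernel

theorem A_g : ∀ i j, ∑ k, A i k * g k j = if i = j then 1 else 0 := by decide +kernel

theorem g_symm : ∀ i j, g i j = g j i := by decide +kernel

theorem g_sigma : ∀ i j, g (σ i) (σ j) = g i j := by decide +kernel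

theorem sigma_three : ∀ i, σ (σ (σ i)) = i := by decide +kernel

theorem t_spec : 65 * ∑ i, t i ^ 2 < 16 * ∑ i, ∑ j, g i j * t i * t j := by decide +kernel

theorem M1_symm : ∀ i j, M1 i j = M1 j i := by decide +kernel

theorem M2_symm : ∀ i j, M2 i j = M2 j i := by decide +kernel

theorem cert1 : ∀ i, ∑ j, (if j = i then 0 else ((22500 * M1 i j - ∑ k, B1 k i * B1 k j).natAbs : ℤ)) ≤
    22500 * M1 i i - ∑ k, B1 k i * B1 k i := by decide +kernel

theorem cert2 : ∀ i, ∑ j, (if j = i then 0 else ((100 * M2 i j - ∑ k, B2 k i * B2 k j).natAbs : ℤ)) ≤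
    100 * M2 i i - ∑ k, B2 k i * B2 k i := by decide +kernel

/-! ### Conclusion -/

/-- numbering of the simplices -/
noncomputable def eqv : Fin 24 ≃ G :=
  Equiv.ofBijective (fun i => ⟨e i, mem_image_of_mem e (mem_univ i)⟩)
    ⟨fun i j h => e_inj i j (congrArg Subtype.val h), fun ⟨x, hx⟩ => by
      obtain ⟨i, _, hi⟩ := mem_image.1 hx
      exact ⟨i, Subtype.ext hi⟩⟩

theorem conn_entry (i j : Fin 24) : connectionMatrix G (eqv i) (eqv j) = (A i j : ℝ) := by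
  show (if (e i ∩ e j).Nonempty then (1 : ℝ) else 0) =
    ((if (e i ∩ e j).Nonempty then 1 else 0 : ℤ) : ℝ)
  split_ifs <;> simp

/-- the inverse -/
noncomputable def gM : Matrix G G ℝ := Matrix.of fun x y => (g (eqv.symm x) (eqv.symm y) : ℝ)

theorem gM_entry (i j : Fin 24) : gM (eqv i) (eqv j) = (g i j : ℝ) := by
  rw [gM, Matrix.of_apply, Equiv.symm_apply_apply, Equiv.symm_apply_apply]

theorem mul_gM : connectionMatrix G * gM = 1 := by
  ext x y
  obtain ⟨i, rfl⟩ := eqv.surjective x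
  obtain ⟨j, rfl⟩ := eqv.surjective y
  rw [Matrix.mul_apply, ← Equiv.sum_comp eqv]
  have : ∀ k, connectionMatrix G (eqv i) (eqv k) * gM (eqv k) (eqv j) =
      ((A i k * g k j : ℤ) : ℝ) := by
    intro k
    rw [conn_entry, gM_entry, Int.cast_mul]
  rw [sum_congr rfl (fun k _ => this k), ← Int.cast_sum, A_g]
  by_cases h : i = j
  · rw [if_pos h, h, Matrix.one_apply_eq, Int.cast_one]
  · rw [if_neg h, Matrix.one_apply_ne (fun h' => h (eqv.injective h')), Int.cast_zero]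

theorem quad_transfer (v : G → ℝ) : ∑ x, ∑ y, gM x y * v x * v y =
    ∑ i, ∑ j, (g i j : ℝ) * v (eqv i) * v (eqv j) := by
  rw [← Equiv.sum_comp eqv]
  apply sum_congr rfl
  intro i _
  rw [← Equiv.sum_comp eqv]
  apply sum_congr rfl
  intro j _
  rw [gM_entry]

theorem inv_bound (u : Fin 24 → ℝ) (hu : ∀ i, u (σ i) = u i) :
    ∑ i, ∑ j, (g i j : ℝ) * u i * u j ≤ 65 / 16 * ∑ i, u i ^ 2 := by
  have h0 := psd_of_cert M1 B1 22500 (by norm_num) M1_symm cert1 u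
  have h1 : ∀ i, ∑ j, (M1 i j : ℝ) * u i * u j =
      65 * u i ^ 2 - 16 * ∑ j, (g i j : ℝ) * u i * u j := by
    intro i
    have h2 : ∀ j, (M1 i j : ℝ) * u i * u j = (if i = j then 161 * u i * u j else 0) -
        16 * ((g i j : ℝ) * u i * u j) - ((if j = i then 32 * u i * u j else 0) +
        (if j = σ i then 32 * u i * u j else 0) + (if j = σ (σ i) then 32 * u i * u j else 0)) := by
      intro j
      simp only [M1, orb]
      push_cast
      split_ifs <;> ring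
    rw [sum_congr rfl (fun j _ => h2 j), sum_sub_distrib, sum_sub_distrib, sum_add_distrib,
      sum_add_distrib, sum_ite_eq, sum_ite_eq', sum_ite_eq', sum_ite_eq', ← mul_sum]
    simp only [mem_univ, if_true]
    rw [hu (σ i), hu i]
    ring
  rw [sum_congr rfl (fun i _ => h1 i), sum_sub_distrib, ← mul_sum, ← mul_sum] at h0
  linarith

theorem low_bound (u : Fin 24 → ℝ) :
    0 ≤ 65 / 16 * ∑ i, u i ^ 2 + ∑ i, ∑ j, (g i j : ℝ) * u i * u j := by
  have h0 := psd_of_cert M2 B2 100 (by norm_num) M2_symm cert2 u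
  have h1 : ∀ i, ∑ j, (M2 i j : ℝ) * u i * u j =
      65 * u i ^ 2 + 16 * ∑ j, (g i j : ℝ) * u i * u j := by
    intro i
    have h2 : ∀ j, (M2 i j : ℝ) * u i * u j = (if i = j then 65 * u i * u j else 0) +
        16 * ((g i j : ℝ) * u i * u j) := by
      intro j
      simp only [M2]
      push_cast
      split_ifs <;> ring
    rw [sum_congr rfl (fun j _ => h2 j), sum_add_distrib, sum_ite_eq, ← mul_sum]
    simp only [mem_univ, if_true]
    ring
  rw [sum_congr rfl (fun i _ => h1 i), sum_add_distrib, ← mul_sum, ← mul_sum] at h0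
  linarith

theorem G_connected : (connectionGraph G).Connected := by
  have hstep : ∀ i, (connectionGraph G).Reachable (eqv i) (eqv (par i)) := by
    intro i
    by_cases hi : i = 0
    · subst hi
      exact SimpleGraph.Reachable.refl _
    · obtain ⟨_, h1, h2⟩ := par_spec i hi
      apply SimpleGraph.Adj.reachable
      rw [connectionGraph, SimpleGraph.fromRel_adj]
      exact ⟨fun h => h1 (eqv.injective h).symm, Or.inl h2⟩
  have h0 : ∀ i, (connectionGraph G).Reachable (eqv i) (eqv 0) := by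
    intro i
    by_cases hi : i = 0
    · subst hi
      exact SimpleGraph.Reachable.refl _
    · have h1 := (par_spec i hi).1
      have h2 := (((((hstep i).trans (hstep _)).trans (hstep _)).trans (hstep _)).trans
        (hstep _)).trans (hstep _)
      rw [h1] at h2
      exact h2
  rw [SimpleGraph.connected_iff]
  refine ⟨fun x y => ?_, ⟨eqv 0⟩⟩
  obtain ⟨i, rfl⟩ := eqv.surjective x
  obtain ⟨j, rfl⟩ := eqv.surjective y
  exact (h0 i).trans (h0 j).symm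

/-- There is a connected finite abstract simplicial complex `G` with nine vertices for which the
largest eigenvalue of the inverse of the connection matrix has multiplicity at least two.  This
eigenvalue `μ` moreover is the eigenvalue with the largest absolute value. -/
theorem result : ∃ G : Finset (Finset (Fin 9)), IsComplex G ∧ (connectionGraph G).Connected ∧
    connectionMatrix G * greenMatrix G = 1 ∧ TopIsMultiple (greenMatrix G) := by
  have hg : greenMatrix G = gM := Matrix.inv_eq_right_inv mul_gM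
  refine ⟨G, fun x hx => ⟨(G_complex x hx).1, fun y hy hne =>
    (G_complex x hx).2 y (mem_powerset.2 hy) hne⟩, G_connected, ?_, ?_⟩
  · rw [hg]
    exact mul_gM
  · rw [hg]
    have hsum : ∀ v : G → ℝ, ∑ x, v x ^ 2 = ∑ i, v (eqv i) ^ 2 :=
      fun v => (Equiv.sum_comp eqv (fun x => v x ^ 2)).symm
    refine abstractPart gM ?_ (fun x => eqv (σ (eqv.symm x))) ?_ ?_ (65 / 16)
      (fun x => (t (eqv.symm x) : ℝ)) ?_ ?_ ?_
    · intro x y
      simp only [gM, Matrix.of_apply]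
      rw [g_symm]
    · intro x
      simp only [Equiv.symm_apply_apply, sigma_three, Equiv.apply_symm_apply]
    · intro x y
      simp only [gM, Matrix.of_apply, Equiv.symm_apply_apply]
      rw [g_sigma]
    · rw [quad_transfer, hsum]
      simp only [Equiv.symm_apply_apply]
      have h1 : ((65 * ∑ i, t i ^ 2 : ℤ) : ℝ) < ((16 * ∑ i, ∑ j, g i j * t i * t j : ℤ) : ℝ) :=
        Int.cast_lt.2 t_spec
      rw [Int.cast_mul, Int.cast_mul, Int.cast_sum, Int.cast_sum] at h1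
      simp_rw [Int.cast_sum, Int.cast_mul, Int.cast_pow] at h1
      norm_num at h1
      linarith
    · intro v hv
      rw [quad_transfer, hsum]
      apply inv_bound
      intro i
      have := hv (eqv i)
      rw [Equiv.symm_apply_apply] at this
      exact this
    · intro v
      rw [quad_transfer, hsum]
      exact low_bound _

end Pool.Agent.Results.MP_5fc97f_co.DoubleTop
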